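import Pool.Agent.Helper36_X1.Stmts3
import Pool.Agent.Helper9_BN.Ch

/-!
# Squad X1, module XFL: the alternating sum as a sum over the flags
-/

open scoped BigOperators

set_option linter.unusedSectionVars false

noncomputable section

namespace Pool.Agent.PP.X1.H86

open Pool.Agent.Helper51_AWC Pool.Agent.Helper79_WRA Pool.Agent.PP

/-! ## Sylow subgroups -/

section syl

variable {D : Type} [Group D] [Finite D] {ℓ : ℕ} [Fact ℓ.Prime]

theorem index_conjS (g : D) (U : Subgroup D) : (conjS g U).index = U.index := by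
  have h1 := Subgroup.card_mul_index (conjS g U)
  have h2 := Subgroup.card_mul_index U
  rw [card_conjS, ← h2] at h1
  exact Nat.eq_of_mul_eq_mul_left Nat.card_pos h1

theorem syl_le {G : Type} [Group G] [Finite G] {P : Subgroup G} (hP : IsPGroup ℓ P)
    (hi : ¬ ℓ ∣ P.index) (Q : Subgroup G) (hQ : IsPGroup ℓ Q) : ∃ g : G, Q ≤ conjS g P := by
  obtain ⟨R, hR⟩ := hQ.exists_le_sylow
  obtain ⟨g, hg⟩ := MulAction.exists_smul_eq G (hP.toSylow hi) R
  refine ⟨g, fun x hx => ?_⟩
  have h1 : x ∈ (g • (hP.toSylow hi)) := by rw [hg]; exact hR hx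
  exact h1

theorem syl_conj {U H : Subgroup D} (hU : IsPGroup ℓ U) (hi : ¬ ℓ ∣ U.index) {g g' : D}
    (hg : conjS g U ≤ H) (hg' : conjS g' U ≤ H) : ∃ h ∈ H, conjS g' U = conjS (h * g) U := by
  have hPp : IsPGroup ℓ ((conjS g U).subgroupOf H) :=
    (conjS_pgroup hU).of_equiv (Subgroup.subgroupOfEquivOfLe hg).symm
  have hQp : IsPGroup ℓ ((conjS g' U).subgroupOf H) :=
    (conjS_pgroup hU).of_equiv (Subgroup.subgroupOfEquivOfLe hg').symm
  have hPi : ¬ ℓ ∣ ((conjS g U).subgroupOf H).index := by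
    intro h
    apply hi
    have h1 : (conjS g U).relIndex H * H.index = (conjS g U).index :=
      Subgroup.relIndex_mul_index hg
    rw [← index_conjS g U, ← h1]
    exact h.mul_right _
  obtain ⟨h, hh⟩ := syl_le hPp hPi _ hQp
  refine ⟨h, h.2, ?_⟩
  have h3 : conjS g' U ≤ conjS ((h : D) * g) U := by
    intro x hx
    have h4 : (⟨x, hg' hx⟩ : H) ∈ (conjS g' U).subgroupOf H := by
      rw [Subgroup.mem_subgroupOf]; exact hx
    have h5 := mem_conjS.1 (hh h4)
    rw [Subgroup.mem_subgroupOf] at h5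
    rw [← conjS_conjS, mem_conjS]
    exact h5
  exact Subgroup.eq_of_le_of_card_ge h3 (by rw [card_conjS, card_conjS])

open Classical in
/-- counting the conjugates of `U` in `H` -/
theorem count [Fintype D] {U H : Subgroup D} (hU : IsPGroup ℓ U) (hi : ¬ ℓ ∣ U.index) {g0 : D}
    (h0 : conjS g0 U ≤ H) :
    ∑ g ∈ (Finset.univ : Finset D).filter (fun g => conjS g U ≤ H),
      Nat.card (H ⊓ Subgroup.normalizer ((conjS g U : Subgroup D) : Set D) : Subgroup D) =
    Nat.card H * Nat.card (Subgroup.normalizer (U : Set D)) := by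
  set A : Subgroup D := Subgroup.normalizer (U : Set D) with hA
  have hAm : ∀ a, a ∈ A ↔ conjS a U = U := fun a => mem_normalizer_iff_conjS
  let f : H × A → D := fun p => p.1 * g0 * p.2
  have hmap : ∀ p ∈ (Finset.univ : Finset (H × A)),
      f p ∈ (Finset.univ : Finset D).filter (fun g => conjS g U ≤ H) := by
    rintro ⟨h, a⟩ -
    refine Finset.mem_filter.2 ⟨Finset.mem_univ _, ?_⟩
    show conjS ((h : D) * g0 * a) U ≤ H
    have h3 : conjS (h : D) H = H := conjS_self h.2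
    rw [← conjS_conjS, (hAm a).1 a.2, ← conjS_conjS]
    exact (conjS_mono.2 h0).trans h3.le
  have h1 : Nat.card H * Nat.card A = Fintype.card (H × A) := by
    rw [Fintype.card_prod, Nat.card_eq_fintype_card, Nat.card_eq_fintype_card]
  rw [h1, ← Finset.card_univ, Finset.card_eq_sum_card_fiberwise hmap]
  refine Finset.sum_congr rfl fun g hg => ?_
  have hg' : conjS g U ≤ H := (Finset.mem_filter.1 hg).2
  obtain ⟨h1, hh1, hg1⟩ := syl_conj hU hi h0 hg'
  have ha1 : conjS (g0⁻¹ * h1⁻¹ * g) U = U := by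
    rw [← conjS_conjS, hg1, conjS_conjS]
    have : g0⁻¹ * h1⁻¹ * (h1 * g0) = 1 := by group
    rw [this, conjS_one]
  have h2 : (Finset.univ.filter fun p : H × A => f p = g).card =
      Nat.card {p : H × A // f p = g} := by
    rw [Nat.card_eq_fintype_card, Fintype.card_subtype]
  rw [h2]
  refine Nat.card_congr
    { toFun := fun k => ⟨(⟨k.1 * h1, H.mul_mem k.2.1 hh1⟩,
        ⟨g0⁻¹ * h1⁻¹ * k.1⁻¹ * g, ?_⟩), ?_⟩
      invFun := fun p => ⟨p.1.1 * h1⁻¹, H.mul_mem p.1.1.2 (H.inv_mem hh1), ?_⟩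
      left_inv := fun k => ?_
      right_inv := fun p => ?_ }
  · rw [hAm]
    have h3 : conjS k.1⁻¹ (conjS g U) = conjS g U :=
      mem_normalizer_iff_conjS.1 (Subgroup.inv_mem _ k.2.2)
    rw [← conjS_conjS, ← conjS_conjS, h3, conjS_conjS]
    exact ha1
  · show k.1 * h1 * g0 * (g0⁻¹ * h1⁻¹ * k.1⁻¹ * g) = g
    group
  · refine mem_normalizer_iff_conjS.2 ?_
    have h3 : (p.1.1 : D) * h1⁻¹ * (h1 * g0) = p.1.1 * g0 := by group
    have h4 : (p.1.1 : D) * g0 * p.1.2 = g := p.2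
    calc conjS ((p.1.1 : D) * h1⁻¹) (conjS g U) = conjS ((p.1.1 : D) * g0) U := by
          rw [hg1, conjS_conjS, h3]
      _ = conjS ((p.1.1 : D) * g0) (conjS (p.1.2 : D) U) := by rw [(hAm _).1 p.1.2.2]
      _ = conjS ((p.1.1 : D) * g0 * p.1.2) U := conjS_conjS _ _ _
      _ = conjS g U := congrArg (fun x => conjS x U) h4
  · apply Subtype.ext
    show k.1 * h1 * h1⁻¹ = k.1
    group
  · apply Subtype.ext
    refine Prod.ext (Subtype.ext ?_) (Subtype.ext ?_)
    · show (p.1.1 : D) * h1⁻¹ * h1 = p.1.1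
      group
    · show g0⁻¹ * h1⁻¹ * ((p.1.1 : D) * h1⁻¹)⁻¹ * g = p.1.2
      have h4 : (p.1.1 : D) * g0 * p.1.2 = g := p.2
      refine (congrArg (fun x => g0⁻¹ * h1⁻¹ * ((p.1.1 : D) * h1⁻¹)⁻¹ * x) h4.symm).trans ?_
      show g0⁻¹ * h1⁻¹ * ((p.1.1 : D) * h1⁻¹)⁻¹ * ((p.1.1 : D) * g0 * p.1.2) = p.1.2
      group

end syl

/-! ## The chains of flags -/

section flags

variable {ℓ : ℕ} {D : Type} [Group D] {M : Subgroup D}

theorem mem_Df {R : RGD ℓ M} {f : Finset (Finset (Fin R.r))} {x : D} :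
    x ∈ Df R f ↔ ∀ J ∈ f, conjS x (up (R.UJ J)) = up (R.UJ J) := by
  simp only [Df, Subgroup.mem_iInf, mem_normalizer_iff_conjS]

theorem up_mono {A B : Subgroup M} : up A ≤ up B ↔ A ≤ B :=
  Subgroup.map_le_map_iff_of_injective M.subtype_injective

theorem up_le (A : Subgroup M) : up A ≤ M := by
  rintro _ ⟨x, -, rfl⟩
  exact x.2

open Classical in
/-- the chain of a flag -/
def cF (R : RGD ℓ M) (f : Finset (Finset (Fin R.r))) : Finset (Subgroup D) :=
  insert ⊥ (f.image fun J => up (R.UJ J))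

theorem mem_cF {R : RGD ℓ M} {f : Finset (Finset (Fin R.r))} {Q : Subgroup D} :
    Q ∈ cF R f ↔ Q = ⊥ ∨ ∃ J ∈ f, up (R.UJ J) = Q := by
  simp [cF]

theorem stab_cF (R : RGD ℓ M) (f : Finset (Finset (Fin R.r))) : stab (cF R f) = Df R f := by
  ext x
  rw [mem_stab, mem_Df]
  constructor
  · intro h J hJ
    exact h _ (mem_cF.2 (Or.inr ⟨J, hJ, rfl⟩))
  · intro h Q hQ
    rcases mem_cF.1 hQ with rfl | ⟨J, hJ, rfl⟩
    · exact conjS_bot x
    · exact h J hJ

/-- the chains that are left -/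
def Ad [Finite D] (R : RGD ℓ M) (d : Finset (Subgroup D)) : Prop :=
  d ∈ chainsOn (psubIn ℓ (⊤ : Subgroup D)) ⊥ ∧ ∀ Q ∈ d, (Q ≠ ⊥ → Rad R Q) ∧
    ∀ Q' ∈ d, Q' ≤ Subgroup.normalizer (Q : Set D)

theorem ad_conj [Finite D] {R : RGD ℓ M}
    (rad : ∀ (g : D) (J : Finset (Fin R.r)), J ≠ Finset.univ → Rad R (conjS g (up (R.UJ J))))
    {d : Finset (Subgroup D)} (hd : Ad R d) (g : D) : Ad R (d.map (conjEmb g)) := by
  obtain ⟨h1, h2⟩ := hd
  obtain ⟨h3, h4, h5⟩ := mem_chainsOn.1 h1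
  refine ⟨mem_chainsOn.2 ⟨?_, ?_, ?_⟩, ?_⟩
  · intro Q hQ
    obtain ⟨E, hE, rfl⟩ := Finset.mem_map.1 hQ
    rw [H75.mem_psubIn', conjEmb_apply]
    exact ⟨le_top, conjS_pgroup (H75.mem_psubIn'.1 (h3 hE)).2⟩
  · exact Finset.mem_map.2 ⟨⊥, h4, conjS_bot g⟩
  · intro x hx y hy hxy
    obtain ⟨E, hE, rfl⟩ := Finset.mem_map.1 (Finset.mem_coe.1 hx)
    obtain ⟨E', hE', rfl⟩ := Finset.mem_map.1 (Finset.mem_coe.1 hy)
    show conjS g E ≤ conjS g E' ∨ conjS g E' ≤ conjS g E
    rw [conjS_mono, conjS_mono]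
    exact chain_total h5 hE hE'
  · intro Q hQ
    obtain ⟨E, hE, rfl⟩ := Finset.mem_map.1 hQ
    obtain ⟨h6, h7⟩ := h2 E hE
    rw [conjEmb_apply]
    refine ⟨fun hne => ?_, ?_⟩
    · have hE0 : E ≠ ⊥ := by
        rintro rfl
        exact hne (conjS_bot g)
      obtain ⟨x, -, J, hJ, rfl⟩ := h6 hE0
      rw [conjS_conjS]
      exact rad _ J hJ
    · intro Q' hQ'
      obtain ⟨E', hE', rfl⟩ := Finset.mem_map.1 hQ'
      rw [BN.H9.norm_conjS, conjEmb_apply, conjS_mono]
      exact h7 E' hE'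

end flags

/-! ## The theorem -/

theorem xfl (xch : XchStmt) (rad : RadStmt) (bas : BasStmt) (par : ParStmt) (_ : SylStmt)
    (_ : BruhStmt) : XflStmt := by
  classical
  intro ℓ _ F _ D _ _ M R hR e he
  have : Fintype D := Fintype.ofFinite D
  have := hR.normal
  obtain ⟨-, -, -, -, bN, bB, bU, bi, bne⟩ := bas ℓ D M R hR
  obtain ⟨rad1, rad2⟩ := rad ℓ D M R hR
  -- the parabolic subgroups
  have hUP : ∀ J, up R.U ≤ up (R.PJ J) := fun J =>
    up_mono.2 ((R.gp_mono Set.subset_union_left).trans le_sup_right)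
  have hUJU : ∀ J, up (R.UJ J) ≤ up R.U := fun J =>
    up_mono.2 (R.gp_mono Set.sdiff_subset)
  have hUN : ∀ J, up R.U ≤ Subgroup.normalizer ((up (R.UJ J) : Subgroup D) : Set D) := fun J =>
    (hUP J).trans ((bN J).ge.trans inf_le_left)
  have hPc : ∀ J, ∀ x ∈ up (R.PJ J), conjS x (up (R.UJ J)) = up (R.UJ J) := fun J x hx =>
    mem_normalizer_iff_conjS.1 (((bN J).ge hx).1)
  have h5 : ∀ J J', up (R.UJ J) ≤ up (R.UJ J') ↔ J' ⊆ J := fun J J' => by
    rw [up_mono]
    exact (par ℓ M R J).2.2.2.2.1 J'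
  have hinj : ∀ J J', up (R.UJ J) = up (R.UJ J') → J = J' := fun J J' h =>
    Finset.Subset.antisymm ((h5 J' J).1 h.ge) ((h5 J J').1 h.le)
  -- every admissible chain is normalised by a conjugate of `U`
  have hex : ∀ d, Ad R d → ∃ g, conjS g (up R.U) ≤ stab d := by
    intro d hd
    obtain ⟨h1, h2⟩ := hd
    obtain ⟨h3, h4, h6⟩ := mem_chainsOn.1 h1
    obtain ⟨Q, hQ, hQm⟩ := exists_greatest h6 ⟨⊥, h4⟩
    by_cases hQ0 : Q = ⊥
    · refine ⟨1, fun x _ => ?_⟩
      rw [mem_stab]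
      intro E hE
      have hE0 : E = ⊥ := le_bot_iff.1 (hQ0 ▸ hQm E hE)
      rw [hE0]
      exact conjS_bot x
    · obtain ⟨g, hgM, J, hJ, hQJ⟩ := (h2 Q hQ).1 hQ0
      refine ⟨g, fun x hx => ?_⟩
      rw [mem_stab]
      intro E hE
      by_cases hE0 : E = ⊥
      · rw [hE0]
        exact conjS_bot x
      obtain ⟨h, hhM, J', hJ', hEJ⟩ := (h2 E hE).1 hE0
      have hle : conjS h (up (R.UJ J')) ≤ conjS g (up R.U) := by
        rw [← hEJ]
        refine (hQm E hE).trans ?_
        rw [hQJ, conjS_mono]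
        exact hUJU J
      have hp : (⟨g, hgM⟩ : M)⁻¹ * ⟨h, hhM⟩ ∈ R.PJ J' := by
        apply (par ℓ M R J').2.1
        intro y hy
        have h7 : h * (y : D) * h⁻¹ ∈ conjS h (up (R.UJ J')) := by
          rw [mem_conjS]
          have h8 : h⁻¹ * (h * (y : D) * h⁻¹) * h = y := by group
          rw [h8]
          exact ⟨y, hy, rfl⟩
        obtain ⟨z, hz, hzy⟩ := mem_conjS.1 (hle h7)
        have h9 : (⟨g, hgM⟩ : M)⁻¹ * ⟨h, hhM⟩ * y * ((⟨g, hgM⟩ : M)⁻¹ * ⟨h, hhM⟩)⁻¹ = z := by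
          apply Subtype.ext
          have h10 : (z : D) = g⁻¹ * (h * (y : D) * h⁻¹) * g := hzy
          rw [h10]
          show g⁻¹ * h * (y : D) * (g⁻¹ * h)⁻¹ = _
          group
        rw [h9]
        exact hz
      have hp' : g⁻¹ * h ∈ up (R.PJ J') := ⟨_, hp, rfl⟩
      have hE1 : E = conjS g (up (R.UJ J')) := by
        rw [hEJ]
        have h7 : h = g * (g⁻¹ * h) := by group
        rw [h7, ← conjS_conjS, hPc J' _ hp']
      rw [hE1]
      have h8 : x ∈ Subgroup.normalizer ((conjS g (up (R.UJ J')) : Subgroup D) : Set D) := by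
        rw [BN.H9.norm_conjS]
        exact conjS_mono.2 (hUN J') hx
      exact mem_normalizer_iff_conjS.1 h8
  -- the chains of flags
  have hcF : ∀ f : Finset (Finset (Fin R.r)), Flag f → Ad R (cF R f) ∧
      up R.U ≤ stab (cF R f) := by
    rintro f ⟨hf1, hf2⟩
    have hN : ∀ Q ∈ cF R f, up R.U ≤ Subgroup.normalizer (Q : Set D) := by
      intro Q hQ
      rcases mem_cF.1 hQ with rfl | ⟨J, -, rfl⟩
      · intro x _
        rw [mem_normalizer_iff_conjS]
        exact conjS_bot x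
      · exact hUN J
    have hle : ∀ Q ∈ cF R f, Q ≤ up R.U := by
      intro Q hQ
      rcases mem_cF.1 hQ with rfl | ⟨J, -, rfl⟩
      · exact bot_le
      · exact hUJU J
    refine ⟨⟨mem_chainsOn.2 ⟨?_, ?_, ?_⟩, ?_⟩, ?_⟩
    · intro Q hQ
      rw [H75.mem_psubIn']
      exact ⟨le_top, bU.to_le (hle Q hQ)⟩
    · exact mem_cF.2 (Or.inl rfl)
    · intro x hx y hy _
      rcases mem_cF.1 (Finset.mem_coe.1 hx) with rfl | ⟨J, hJ, rfl⟩
      · left; exact bot_le
      · rcases mem_cF.1 (Finset.mem_coe.1 hy) with rfl | ⟨J', hJ', rfl⟩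
        · right; exact bot_le
        · show up (R.UJ J) ≤ up (R.UJ J') ∨ up (R.UJ J') ≤ up (R.UJ J)
          rw [h5, h5]
          rcases eq_or_ne J J' with h | h
          · left; rw [h]
          · exact (hf2 (Finset.mem_coe.2 hJ) (Finset.mem_coe.2 hJ') h).symm
    · intro Q hQ
      refine ⟨fun hne => ?_, fun Q' hQ' => (hle Q' hQ').trans (hN Q hQ)⟩
      rcases mem_cF.1 hQ with h | ⟨J, hJ, rfl⟩
      · exact absurd h hne
      · exact ⟨1, M.one_mem, J, hf1 J hJ, (conjS_one _).symm⟩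
    · intro x hx
      rw [mem_stab]
      intro Q hQ
      exact mem_normalizer_iff_conjS.1 (hN Q hQ hx)
  have hcFs : ∀ d, Ad R d → up R.U ≤ stab d → ∃ f : Finset (Finset (Fin R.r)), Flag f ∧
      cF R f = d := by
    intro d hd hUd
    obtain ⟨h1, h2⟩ := hd
    obtain ⟨h3, h4, h6⟩ := mem_chainsOn.1 h1
    refine ⟨Finset.univ.filter fun J => J ≠ Finset.univ ∧ up (R.UJ J) ∈ d, ⟨?_, ?_⟩, ?_⟩
    · intro J hJ
      exact (Finset.mem_filter.1 hJ).2.1
    · intro J hJ J' hJ' _
      have a1 := (Finset.mem_filter.1 (Finset.mem_coe.1 hJ)).2.2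
      have a2 := (Finset.mem_filter.1 (Finset.mem_coe.1 hJ')).2.2
      show J ⊆ J' ∨ J' ⊆ J
      rw [← h5, ← h5]
      exact (chain_total h6 a1 a2).symm
    · ext Q
      rw [mem_cF]
      constructor
      · rintro (rfl | ⟨J, hJ, rfl⟩)
        · exact h4
        · exact (Finset.mem_filter.1 hJ).2.2
      · intro hQ
        by_cases hQ0 : Q = ⊥
        · exact Or.inl hQ0
        right
        obtain ⟨g, hgM, J, hJ, hQJ⟩ := (h2 Q hQ).1 hQ0
        have hUQ : up R.U ≤ Subgroup.normalizer (Q : Set D) := fun x hx =>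
          mem_normalizer_iff_conjS.2 (mem_stab.1 (hUd hx) Q hQ)
        have h7 : conjS g⁻¹ (up R.U) ≤ up (R.PJ J) := by
          rw [← bN J]
          refine le_inf ?_ ?_
          · rw [← conjS_mono (g := g), conjS_conjS, mul_inv_cancel, conjS_one,
              ← BN.H9.norm_conjS, ← hQJ]
            exact hUQ
          · intro x hx
            have h8 := up_le _ (mem_conjS.1 hx)
            have h9 : x = g⁻¹ * (g⁻¹⁻¹ * x * g⁻¹) * g := by group
            rw [h9]
            exact M.mul_mem (M.mul_mem (M.inv_mem hgM) h8) hgM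
        have h8 : conjS 1 (up R.U) ≤ up (R.PJ J) := by
          rw [conjS_one]
          exact hUP J
        obtain ⟨p, hp, hgp⟩ := syl_conj bU bi h8 h7
        rw [mul_one] at hgp
        have h9 : conjS (g * p) (up R.U) = up R.U := by
          rw [← conjS_conjS, ← hgp, conjS_conjS, mul_inv_cancel, conjS_one]
        have h10 : g * p ∈ up R.B := by
          rw [← bB]
          refine ⟨M.mul_mem hgM (up_le _ hp), ?_⟩
          exact mem_normalizer_iff_conjS.2 h9
        have hBP : up R.B ≤ up (R.PJ J) := up_mono.2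
          (sup_le le_sup_left ((R.gp_mono Set.subset_union_left).trans le_sup_right))
        have h11 : g ∈ up (R.PJ J) := by
          have h12 : g = g * p * p⁻¹ := by group
          rw [h12]
          exact (up (R.PJ J)).mul_mem (hBP h10) ((up (R.PJ J)).inv_mem hp)
        rw [hPc J g h11] at hQJ
        exact ⟨J, Finset.mem_filter.2 ⟨Finset.mem_univ _, hJ, hQJ ▸ hQ⟩, hQJ.symm⟩
  -- the sum
  set w : Subgroup D → ℤ := fun X => (Nat.card X : ℤ) * (lnum X e : ℤ) with hw
  have hwc : ∀ (g : D) (X : Subgroup D), lnum (conjS g X) e = lnum X e := by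
    intro g X
    rw [conjS, H75.lnum_map _ (MulAut.conj g).injective]
    have h4 : (fun x => e ((MulAut.conj g).toMonoidHom x)) = e := by
      funext x
      exact he x g
    rw [h4]
  set S : Finset (Finset (Subgroup D)) :=
    (chainsOn (psubIn ℓ (⊤ : Subgroup D)) ⊥).filter fun d => Ad R d with hS
  have hSm : ∀ d, d ∈ S ↔ Ad R d := fun d => by
    rw [hS, Finset.mem_filter]
    exact ⟨fun h => h.2, fun h => ⟨h.1, h⟩⟩
  have hYY : YY ℓ ⊤ e = ∑ d ∈ S, (-1) ^ (d.card + 1) * w (stab d) := by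
    refine (xch ℓ D (Rad R) rad1 w).trans ?_
    refine Finset.sum_congr ?_ fun _ _ => rfl
    ext d
    simp only [hSm, Finset.mem_filter]
    rfl
  let Fn : Finset (Subgroup D) → D → ℤ := fun d g => (-1) ^ (d.card + 1) *
    ((Nat.card (stab d ⊓ Subgroup.normalizer ((conjS g (up R.U) : Subgroup D) : Set D) :
      Subgroup D) : ℤ) * (lnum (stab d) e : ℤ))
  have hA : (Nat.card (AD R) : ℤ) * YY ℓ ⊤ e = ∑ d ∈ S,
      ∑ g ∈ (Finset.univ : Finset D).filter (fun g => conjS g (up R.U) ≤ stab d), Fn d g := by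
    rw [hYY, Finset.mul_sum]
    refine Finset.sum_congr rfl fun d hd => ?_
    obtain ⟨g0, hg0⟩ := hex d ((hSm d).1 hd)
    have h1 := count bU bi hg0
    have h2 : (∑ g ∈ (Finset.univ : Finset D).filter (fun g => conjS g (up R.U) ≤ stab d),
        (Nat.card (stab d ⊓ Subgroup.normalizer ((conjS g (up R.U) : Subgroup D) : Set D) :
          Subgroup D) : ℤ)) = (Nat.card (stab d) : ℤ) * (Nat.card (AD R) : ℤ) := by
      have := congrArg (fun n : ℕ => (n : ℤ)) h1
      push_cast at this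
      exact this
    show _ = ∑ g ∈ (Finset.univ : Finset D).filter (fun g => conjS g (up R.U) ≤ stab d),
      (-1) ^ (d.card + 1) *
    ((Nat.card (stab d ⊓ Subgroup.normalizer ((conjS g (up R.U) : Subgroup D) : Set D) :
      Subgroup D) : ℤ) * (lnum (stab d) e : ℤ))
    rw [← Finset.mul_sum, ← Finset.sum_mul, h2]
    simp only [hw]
    ring
  have hB : (∑ d ∈ S, ∑ g ∈ (Finset.univ : Finset D).filter
      (fun g => conjS g (up R.U) ≤ stab d), Fn d g) =
      ∑ g : D, ∑ d ∈ S.filter (fun d => conjS g (up R.U) ≤ stab d), Fn d g := by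
    apply Finset.sum_comm'
    intro d g
    simp only [Finset.mem_filter, Finset.mem_univ, true_and, and_true]
  have hC : ∀ g : D, ∑ d ∈ S.filter (fun d => conjS g (up R.U) ≤ stab d), Fn d g =
      ∑ d ∈ S.filter (fun d => up R.U ≤ stab d), Fn d 1 := by
    intro g
    symm
    refine Finset.sum_bij (fun d _ => d.map (conjEmb g)) ?_ ?_ ?_ ?_
    · intro d hd
      obtain ⟨h1, h2⟩ := Finset.mem_filter.1 hd
      refine Finset.mem_filter.2 ⟨(hSm _).2 (ad_conj rad2 ((hSm d).1 h1) g), ?_⟩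
      rw [stab_map_conj, conjS_mono]
      exact h2
    · intro d _ d' _ h
      exact Finset.map_injective _ h
    · intro d hd
      obtain ⟨h1, h2⟩ := Finset.mem_filter.1 hd
      have h3 : (d.map (conjEmb g⁻¹)).map (conjEmb g) = d := by
        rw [Finset.map_map]
        have h4 : (conjEmb g⁻¹).trans (conjEmb g) = Function.Embedding.refl _ := by
          ext1 E
          show conjS g (conjS g⁻¹ E) = E
          rw [conjS_conjS, mul_inv_cancel, conjS_one]
        rw [h4, Finset.map_refl]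
      refine ⟨d.map (conjEmb g⁻¹), Finset.mem_filter.2
        ⟨(hSm _).2 (ad_conj rad2 ((hSm d).1 h1) _), ?_⟩, h3⟩
      rw [← conjS_mono (g := g), ← stab_map_conj, h3]
      exact h2
    · intro d _
      show (-1) ^ (d.card + 1) *
        ((Nat.card (stab d ⊓ Subgroup.normalizer ((conjS 1 (up R.U) : Subgroup D) : Set D) :
          Subgroup D) : ℤ) * (lnum (stab d) e : ℤ)) = (-1) ^ ((d.map (conjEmb g)).card + 1) *
        ((Nat.card (stab (d.map (conjEmb g)) ⊓
          Subgroup.normalizer ((conjS g (up R.U) : Subgroup D) : Set D) :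
          Subgroup D) : ℤ) * (lnum (stab (d.map (conjEmb g))) e : ℤ))
      rw [Finset.card_map, stab_map_conj, hwc, conjS_one, BN.H9.norm_conjS]
      have h1 : conjS g (stab d) ⊓ conjS g (Subgroup.normalizer ((up R.U : Subgroup D) : Set D)) =
          conjS g (stab d ⊓ Subgroup.normalizer ((up R.U : Subgroup D) : Set D)) := by
        ext x
        simp only [Subgroup.mem_inf, mem_conjS]
      rw [h1, card_conjS]
  have hE : ∑ d ∈ S.filter (fun d => up R.U ≤ stab d), Fn d 1 =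
      ∑ f ∈ (Finset.univ : Finset (Finset (Finset (Fin R.r)))).filter (fun f => Flag f),
      (-1) ^ f.card * ((Nat.card (Df R f ⊓ AD R : Subgroup D) : ℤ) * (lnum (Df R f) e : ℤ)) := by
    symm
    refine Finset.sum_bij (fun f _ => cF R f) ?_ ?_ ?_ ?_
    · intro f hf
      obtain ⟨h1, h2⟩ := hcF f (Finset.mem_filter.1 hf).2
      exact Finset.mem_filter.2 ⟨(hSm _).2 h1, h2⟩
    · intro f hf f' hf' h
      have key : ∀ f f' : Finset (Finset (Fin R.r)), Flag f → cF R f = cF R f' → f ⊆ f' := by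
        intro f f' hf h J hJ
        have h1 : up (R.UJ J) ∈ cF R f' := by
          rw [← h]
          exact mem_cF.2 (Or.inr ⟨J, hJ, rfl⟩)
        rcases mem_cF.1 h1 with h2 | ⟨J', hJ', h2⟩
        · exact absurd h2 (bne J (hf.1 J hJ))
        · rw [← hinj _ _ h2]
          exact hJ'
      exact Finset.Subset.antisymm (key f f' (Finset.mem_filter.1 hf).2 h)
        (key f' f (Finset.mem_filter.1 hf').2 h.symm)
    · intro d hd
      obtain ⟨h1, h2⟩ := Finset.mem_filter.1 hd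
      obtain ⟨f, hf, hfd⟩ := hcFs d ((hSm d).1 h1) h2
      exact ⟨f, Finset.mem_filter.2 ⟨Finset.mem_univ _, hf⟩, hfd⟩
    · intro f hf
      have hf' := (Finset.mem_filter.1 hf).2
      have hcard : (cF R f).card = f.card + 1 := by
        unfold cF
        rw [Finset.card_insert_of_notMem, Finset.card_image_of_injective]
        · intro J J' h
          exact hinj _ _ h
        · intro h
          obtain ⟨J, hJ, h1⟩ := Finset.mem_image.1 h
          exact bne J (hf'.1 J hJ) h1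
      show _ = (-1) ^ ((cF R f).card + 1) *
        ((Nat.card (stab (cF R f) ⊓
          Subgroup.normalizer ((conjS 1 (up R.U) : Subgroup D) : Set D) :
          Subgroup D) : ℤ) * (lnum (stab (cF R f)) e : ℤ))
      rw [hcard, stab_cF, conjS_one, pow_succ, pow_succ]
      show _ = (-1 : ℤ) ^ f.card * -1 * -1 * ((Nat.card (Df R f ⊓ AD R : Subgroup D) : ℤ) *
        (lnum (Df R f) e : ℤ))
      ring
  rw [hA, hB, Finset.sum_congr rfl fun g _ => hC g, Finset.sum_const, Finset.card_univ,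
    nsmul_eq_mul, ← Nat.card_eq_fintype_card, hE]

end Pool.Agent.PP.X1.H86
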